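import Pool.Agent.KS6_88.SN.M2
import Pool.Agent.KS6_88.SN.N4
import Pool.Graph.R_seed8.Results.MP_01622d_an.AllOrders

set_option autoImplicit false

/-!
# The snake polynomial in the Markov inequality with a majorant: the exact threshold

For `0 ≤ k ≤ n` the snake polynomial is extremal for EVERY majorant if and only if `n ≤ 2k+1`.

* Positive part (`n ≤ 2k+1`): the extremality holds at the end points `±1`, for arbitrary nodes and
  arbitrary values of the majorant at the nodes, and even among all polynomials `q` of degree at most `n`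
  with `|q| ≤ μ` only at the alternation points.  Proof: by the Lagrange formula, by averaging and by
  multi-affinity one needs, for `n = 2d-1`, `k = d-1`, an inequality between the Krawtchouk numbers
  `[X^k] (X-v)^a (X+u)^(n-a)`, `a ≥ d` and `a < d`, `u + v = 1`; it is proved by their orthogonality and
  their three-term recurrence.
* Negative part (`n ≥ 2k+2`): a strictly positive continuous majorant for which the snake polynomial is
  not extremal, and whose defect is at least `c(k) √n`.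
-/

namespace Pool.Agent.Results.MP_01622d_an.SharpThreshold

open Polynomial Set
open Pool.Agent.Results.MP_01622d_an (SnakeNotExtremal.IsMajorant SnakeNotExtremal.Admissible
  SnakeNotExtremal.IsSnake SnakeNotExtremal.supNorm SnakeNotExtremal.supNorm_le
  SnakeNotExtremal.le_supNorm)

/-- The exact threshold.  Let `k ≥ 0`.

1. For every `n ≥ k`: the snake polynomial `ω` of every majorant `μ` satisfies
   `‖q^(k)‖ ≤ ‖ω^(k)‖` for all polynomials `q` of degree at most `n` with `|q| ≤ μ` on `[-1,1]`, if and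
   only if `n ≤ 2k+1`.
2. For `k ≤ n ≤ 2k+1`: if `τ 0 > ... > τ n` are points of `[-1,1]`, `ω (τ i) = (-1)^i μ (τ i)` and
   `|q (τ i)| ≤ μ (τ i)` for all `i` (nothing is assumed between these points), then
   `‖q^(k)‖ ≤ max (|ω^(k)(1)|, |ω^(k)(-1)|)`.
3. There is `c > 0` such that for every `n ≥ 2k+2` there are a strictly positive continuous majorant `μ`,
   its snake polynomial `ω` and an admissible `q` with `‖q^(k)‖ > ‖ω^(k)‖` and
   `‖q^(k)‖ ≥ c √n ‖ω^(k)‖`. -/
theorem result (k : ℕ) :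
    (∀ n : ℕ, k ≤ n →
      ((∀ (μ : ℝ → ℝ) (ω q : ℝ[X]), SnakeNotExtremal.IsMajorant μ → SnakeNotExtremal.IsSnake n μ ω →
          SnakeNotExtremal.Admissible n μ q →
          SnakeNotExtremal.supNorm (derivative^[k] q) ≤ SnakeNotExtremal.supNorm (derivative^[k] ω)) ↔
        n ≤ 2 * k + 1)) ∧
    (∀ n : ℕ, k ≤ n → n ≤ 2 * k + 1 → ∀ (μ : ℝ → ℝ) (ω q : ℝ[X]) (τ : Fin (n + 1) → ℝ),
      (∀ i j, i < j → τ j < τ i) → (∀ i, τ i ∈ Icc (-1 : ℝ) 1) →
      ω.natDegree ≤ n → (∀ i, ω.eval (τ i) = (-1) ^ (i : ℕ) * μ (τ i)) →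
      q.natDegree ≤ n → (∀ i, |q.eval (τ i)| ≤ μ (τ i)) →
      SnakeNotExtremal.supNorm (derivative^[k] q)
        ≤ max |(derivative^[k] ω).eval 1| |(derivative^[k] ω).eval (-1)|) ∧
    (∃ c : ℝ, 0 < c ∧ ∀ n : ℕ, 2 * k + 2 ≤ n →
      ∃ (μ : ℝ → ℝ) (ω q : ℝ[X]), SnakeNotExtremal.IsMajorant μ ∧
        (∀ x ∈ Icc (-1 : ℝ) 1, 0 < μ x) ∧ SnakeNotExtremal.IsSnake n μ ω ∧
        SnakeNotExtremal.Admissible n μ q ∧
        SnakeNotExtremal.supNorm (derivative^[k] ω) < SnakeNotExtremal.supNorm (derivative^[k] q) ∧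
        c * √n * SnakeNotExtremal.supNorm (derivative^[k] ω) ≤
          SnakeNotExtremal.supNorm (derivative^[k] q)) := by
  have hpos : ∀ n : ℕ, k ≤ n → n ≤ 2 * k + 1 → ∀ (μ : ℝ → ℝ) (ω q : ℝ[X]) (τ : Fin (n + 1) → ℝ),
      (∀ i j, i < j → τ j < τ i) → (∀ i, τ i ∈ Icc (-1 : ℝ) 1) →
      ω.natDegree ≤ n → (∀ i, ω.eval (τ i) = (-1) ^ (i : ℕ) * μ (τ i)) →
      q.natDegree ≤ n → (∀ i, |q.eval (τ i)| ≤ μ (τ i)) →
      SnakeNotExtremal.supNorm (derivative^[k] q)
        ≤ max |(derivative^[k] ω).eval 1| |(derivative^[k] ω).eval (-1)| := by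
    intro n hkn hn μ ω q τ hτ hI hω hωτ hq hqτ
    apply SnakeNotExtremal.supNorm_le
    intro x hx
    exact Pool.Agent.KS6_88.SN.extremal n k hkn hn τ hτ hI (fun i => μ (τ i)) ω q hω hq hωτ hqτ x hx
  refine ⟨fun n hkn => ⟨fun h => ?_, fun hn μ ω q _ hω hq => ?_⟩, hpos, ?_⟩
  · by_contra hcon
    obtain ⟨μ, ω, q, h1, -, h3, h4, h5⟩ := Pool.Agent.KS6_88.SN.not_extremal k n (by omega)
    exact absurd (h μ ω q h1 h3 h4) (not_le.mpr h5)
  · obtain ⟨⟨hω1, -⟩, τ, hτ, hI, hωτ⟩ := hω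
    refine le_trans (hpos n hkn hn μ ω q τ hτ hI hω1 hωτ hq.1 fun i => hq.2 _ (hI i)) ?_
    exact max_le (SnakeNotExtremal.le_supNorm _ (by norm_num)) (SnakeNotExtremal.le_supNorm _ (by norm_num))
  · obtain ⟨c0, hc0, n0, hn0, hlib⟩ := Pool.Agent.Results.MP_01622d_an.AllOrders.result k
    have hs0 : 0 < √((n0 : ℝ) + 1) := Real.sqrt_pos.mpr (by positivity)
    refine ⟨min c0 (1 / √((n0 : ℝ) + 1)), lt_min hc0 (by positivity), fun n hn => ?_⟩
    rcases Nat.lt_or_ge n n0 with hlt | hge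
    · obtain ⟨μ, ω, q, h1, h2, h3, h4, h5⟩ := Pool.Agent.KS6_88.SN.not_extremal k n hn
      refine ⟨μ, ω, q, h1, h2, h3, h4, h5, ?_⟩
      have hω := Pool.Agent.KS6_88.SN.supNorm_nonneg (derivative^[k] ω)
      have hsq : √(n : ℝ) ≤ √((n0 : ℝ) + 1) := by
        apply Real.sqrt_le_sqrt
        have : (n : ℝ) ≤ n0 := by exact_mod_cast hlt.le
        linarith
      have hle : min c0 (1 / √((n0 : ℝ) + 1)) * √(n : ℝ) ≤ 1 := by
        calc min c0 (1 / √((n0 : ℝ) + 1)) * √(n : ℝ) ≤ (1 / √((n0 : ℝ) + 1)) * √((n0 : ℝ) + 1) :=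
              mul_le_mul (min_le_right _ _) hsq (Real.sqrt_nonneg _) (by positivity)
          _ = 1 := by field_simp
      have := mul_le_mul_of_nonneg_right hle hω
      linarith
    · obtain ⟨μ, ω, q, h1, h2, h3, h4, h5, h6⟩ := hlib n hge
      refine ⟨μ, ω, q, h1, h2, h3, h4, h5, le_trans ?_ h6⟩
      have hω := Pool.Agent.KS6_88.SN.supNorm_nonneg (derivative^[k] ω)
      apply mul_le_mul_of_nonneg_right _ hω
      exact mul_le_mul_of_nonneg_right (min_le_left _ _) (Real.sqrt_nonneg _)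

end Pool.Agent.Results.MP_01622d_an.SharpThreshold
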